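import Pool.Agent.helper3.SG.SpecN
import Pool.Agent.helper17.SG.SpecB

set_option autoImplicit false

open MeasureTheory Set Metric Filter Topology
open scoped ENNReal NNReal ComplexConjugate

namespace Pool.Agent.SG

theorem N03_norm (u p : ℂ) (hu : ‖u‖ = 1) : ‖1 - conj u * p‖ = ‖u - p‖ := by
  have h1 : u * conj u = 1 := by
    rw [Complex.mul_conj, Complex.normSq_eq_norm_sq, hu]
    norm_num
  have h2 : u * (1 - conj u * p) = u - p := by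
    rw [mul_sub, mul_one, ← mul_assoc, h1, one_mul]
  rw [← h2, norm_mul, hu, one_mul]

theorem N03_min {Γ : Type} (T₀ : Finset Γ) (κ : Γ → ℝ) (hκ : ∀ t, 0 < κ t ∧ κ t ≤ 1) :
    ∃ κ₀ : ℝ, 0 < κ₀ ∧ κ₀ ≤ 1 ∧ ∀ t ∈ T₀, κ₀ ≤ κ t := by
  classical
  induction T₀ using Finset.induction_on with
  | empty => exact ⟨1, one_pos, le_rfl, by simp⟩
  | insert a s _ ih =>
    obtain ⟨κ₁, h1, h2, h3⟩ := ih
    refine ⟨min κ₁ (κ a), lt_min h1 (hκ a).1, (min_le_left _ _).trans h2, ?_⟩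
    intro t ht
    rcases Finset.mem_insert.1 ht with rfl | ht
    · exact min_le_right _ _
    · exact (min_le_left _ _).trans (h3 t ht)

/-- a density is bounded below on a part of positive measure -/
theorem N03_lev (m ν : Measure ℂ) [IsFiniteMeasure m] [IsFiniteMeasure ν] (hac : ν ≪ m)
    (Y : Set ℂ) (hY : MeasurableSet Y) (hν : ν Y ≠ 0) :
    ∃ δ : ℝ, 0 < δ ∧ m (Y ∩ {ξ | ENNReal.ofReal δ ≤ ν.rnDeriv m ξ}) ≠ 0 := by
  by_contra hcon
  push Not at hcon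
  apply hν
  set f := ν.rnDeriv m with hf
  have hfm : Measurable f := Measure.measurable_rnDeriv ν m
  have hwd : m.withDensity f = ν := Measure.withDensity_rnDeriv_eq ν m hac
  have h1 : m (Y ∩ {ξ | f ξ ≠ 0}) = 0 := by
    have hsub : Y ∩ {ξ | f ξ ≠ 0} ⊆ ⋃ k : ℕ, Y ∩ {ξ | ENNReal.ofReal (1 / ((k : ℝ) + 1)) ≤ f ξ} := by
      rintro ξ ⟨hξ, hξ0⟩
      obtain ⟨k, hk⟩ := ENNReal.exists_inv_nat_lt hξ0
      refine mem_iUnion.2 ⟨k, hξ, ?_⟩
      refine le_trans ?_ hk.le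
      rw [one_div, ENNReal.ofReal_inv_of_pos (by positivity)]
      apply ENNReal.inv_le_inv.2
      rw [ENNReal.ofReal_add (by positivity) (by norm_num), ENNReal.ofReal_natCast]
      exact le_self_add
    refine measure_mono_null hsub ?_
    rw [measure_iUnion_null_iff]
    intro k
    exact hcon (1 / ((k : ℝ) + 1)) (by positivity)
  have h2 : ν (Y ∩ {ξ | f ξ ≠ 0}) = 0 := hac h1
  have h3 : ν (Y ∩ {ξ | f ξ = 0}) = 0 := by
    have hms : MeasurableSet (Y ∩ {ξ | f ξ = 0}) := hY.inter (hfm (measurableSet_singleton 0))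
    rw [← hwd, withDensity_apply _ hms, setLIntegral_eq_zero_iff hms hfm]
    exact Filter.Eventually.of_forall fun ξ hξ => hξ.2
  have h4 : Y ⊆ (Y ∩ {ξ | f ξ ≠ 0}) ∪ (Y ∩ {ξ | f ξ = 0}) := by
    intro ξ hξ
    by_cases h : f ξ = 0
    · exact Or.inr ⟨hξ, h⟩
    · exact Or.inl ⟨hξ, h⟩
  refine measure_mono_null h4 ?_
  exact measure_union_null h2 h3

/-- the local statement at a conical point -/
theorem N03_loc (h1 : B01_stmt) (h3 : B03_stmt) (h5 : B05_stmt) (h15 : B15_stmt)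
    (Γ : Type) [Group Γ] (A : DiscRep Γ) (ν : Measure ℂ) [IsProbabilityMeasure ν] (hac : ν ≪ lam)
    (T₀ : Finset Γ) (c κ₀ C C₁ δ τ : ℝ) (u η : ℂ) (w : Γ)
    (hc : 0 < c) (hc1 : c ≤ 1) (hκ₀ : 0 < κ₀) (hκ : ∀ t ∈ T₀, κ₀ ≤ A.kk t)
    (hδ : 0 < δ) (hτ : 0 < τ) (hτc : τ ≤ c / 4) (_hC₁ : 0 < C₁)
    (hτδ : 64 * C₁ * τ ≤ δ) (hu : ‖u‖ = 1)
    (hT : ∀ z w : ℂ, ‖z‖ ≤ 1 → ‖w‖ ≤ 1 → ∃ t ∈ T₀, c ≤ ‖1 - conj z * A.act t w‖)
    (hN2 : ∀ x : Γ, c ≤ ‖u - A.pt x⁻¹‖ →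
      ν (A.act x⁻¹ ⁻¹' (circ ∩ closedBall u (τ / 2))) ≤ ENNReal.ofReal (C₁ * A.kk x * τ ^ 2))
    (hη : ‖η - A.pt w‖ ≤ C * A.kk w) :
    ∃ S : Set ℂ, MeasurableSet S ∧
      S ⊆ closedBall η ((8 / (c * κ₀) + 2 / κ₀ + C) * A.kk w) ∧
      (∀ ξ ∈ S, ν.rnDeriv lam ξ < ENNReal.ofReal δ) ∧
      ENNReal.ofReal (κ₀ * τ / 256 * A.kk w) ≤ lam S := by
  obtain ⟨b1, b2, b3, b4, b5, b6, b7, b8, b9, b10⟩ := h1 Γ A
  obtain ⟨k1, -, -, kpt, kinv, kact, -, -, k9, k10, -, k12⟩ := h3 Γ A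
  obtain ⟨hprob, hcirc, hball, hballz, -⟩ := h5
  have := hprob
  obtain ⟨t, ht, hct⟩ := hT u (A.pt w⁻¹) hu.le (kpt _).le
  rw [← kact, N03_norm u _ hu] at hct
  set x : Γ := w * t⁻¹ with hx
  have hxinv : x⁻¹ = t * w⁻¹ := by rw [hx]; group
  rw [← hxinv] at hct
  have hkw := (k1 w).1
  have hkx := (k1 x).1
  have hkt : κ₀ ≤ A.kk t⁻¹ := by rw [kinv]; exact hκ t ht
  -- sizes
  have hx1 : κ₀ * A.kk w ≤ 4 * A.kk x := by
    have := k9 w t⁻¹
    rw [← hx] at this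
    nlinarith
  have hx2 : κ₀ * A.kk x ≤ 4 * A.kk w := by
    have := k10 w t⁻¹
    rw [← hx] at this
    nlinarith
  have hx2' : A.kk x ≤ 4 / κ₀ * A.kk w := by
    rw [div_mul_eq_mul_div, le_div_iff₀ hκ₀]
    linarith
  -- distance of the orbit points
  have hd : ‖A.pt x - A.pt w‖ ≤ 2 / κ₀ * A.kk w := by
    have h := k12 w t⁻¹
    rw [← hx] at h
    have hp : ‖A.pt t⁻¹‖ < 1 := kpt _
    have hq : ‖A.pt w⁻¹‖ < 1 := kpt _
    have hden : κ₀ / 2 ≤ ‖1 - conj (A.pt w⁻¹) * A.pt t⁻¹‖ := by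
      have h4 : 1 - ‖A.pt t⁻¹‖ ≤ ‖1 - conj (A.pt w⁻¹) * A.pt t⁻¹‖ := by
        have h5 : ‖(1 : ℂ)‖ - ‖conj (A.pt w⁻¹) * A.pt t⁻¹‖ ≤ ‖1 - conj (A.pt w⁻¹) * A.pt t⁻¹‖ :=
          norm_sub_norm_le _ _
        rw [norm_one, norm_mul, RCLike.norm_conj] at h5
        have h6 : ‖A.pt w⁻¹‖ * ‖A.pt t⁻¹‖ ≤ 1 * ‖A.pt t⁻¹‖ :=
          mul_le_mul_of_nonneg_right hq.le (norm_nonneg _)
        linarith
      have h7 : A.kk t⁻¹ = (1 - ‖A.pt t⁻¹‖) * (1 + ‖A.pt t⁻¹‖) := by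
        unfold DiscRep.kk
        ring
      have h8 : A.kk t⁻¹ ≤ 2 * (1 - ‖A.pt t⁻¹‖) := by
        rw [h7]
        nlinarith [norm_nonneg (A.pt t⁻¹)]
      linarith
    have h9 : ‖A.pt x - A.pt w‖ * (κ₀ / 2) ≤ A.kk w := by
      calc ‖A.pt x - A.pt w‖ * (κ₀ / 2) ≤ ‖A.pt x - A.pt w‖ * ‖1 - conj (A.pt w⁻¹) * A.pt t⁻¹‖ :=
            mul_le_mul_of_nonneg_left hden (norm_nonneg _)
        _ = A.kk w * ‖A.pt t⁻¹‖ := h
        _ ≤ A.kk w * 1 := mul_le_mul_of_nonneg_left hp.le hkw.le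
        _ = A.kk w := mul_one _
    rw [div_mul_eq_mul_div, le_div_iff₀ hκ₀]
    linarith
  -- the arc
  set I : Set ℂ := circ ∩ closedBall u (τ / 2) with hI
  have hcm : MeasurableSet circ := isClosed_sphere.measurableSet
  have hIm : MeasurableSet I := hcm.inter isClosed_closedBall.measurableSet
  have hIc : I ⊆ circ := inter_subset_left
  obtain ⟨h15a, h15b⟩ := h15 Γ A x I hIm hIc
  have hIdist : ∀ ξ ∈ I, c / 2 ≤ ‖ξ - A.pt x⁻¹‖ := by
    intro ξ hξ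
    have h4 : ‖ξ - u‖ ≤ τ / 2 := by
      have := hξ.2
      rwa [mem_closedBall, dist_eq_norm] at this
    have h5 : ‖u - A.pt x⁻¹‖ ≤ ‖ξ - u‖ + ‖ξ - A.pt x⁻¹‖ := by
      calc ‖u - A.pt x⁻¹‖ = ‖(ξ - A.pt x⁻¹) - (ξ - u)‖ := by congr 1; ring
        _ ≤ ‖ξ - A.pt x⁻¹‖ + ‖ξ - u‖ := norm_sub_le _ _
        _ = ‖ξ - u‖ + ‖ξ - A.pt x⁻¹‖ := add_comm _ _
    linarith
  obtain ⟨-, h15c⟩ := h15b (c / 2) (by linarith) hIdist
  set S₁ : Set ℂ := circ ∩ A.act x⁻¹ ⁻¹' I with hS₁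
  have hS₁m : MeasurableSet S₁ := hcm.inter (b8 x⁻¹ hIm)
  have hlamc : ∀ E : Set ℂ, lam E = lam (circ ∩ E) := by
    intro E
    apply le_antisymm
    · calc lam E ≤ lam ((circ ∩ E) ∪ circᶜ) := by
            apply measure_mono
            intro y hy
            by_cases hyc : y ∈ circ
            · exact Or.inl ⟨hyc, hy⟩
            · exact Or.inr hyc
        _ ≤ lam (circ ∩ E) + lam circᶜ := measure_union_le _ _
        _ = lam (circ ∩ E) := by rw [hcirc, add_zero]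
    · exact measure_mono inter_subset_right
  have hlamI : ENNReal.ofReal (τ / 8) ≤ lam I := by
    have h4 := (hball u (τ / 2) hu (by linarith) (by linarith)).1
    rw [hlamc, ← hI] at h4
    have h5 : τ / 2 / 4 = τ / 8 := by ring
    rwa [h5] at h4
  have hlamS₁ : ENNReal.ofReal (A.kk x * τ / 32) ≤ lam S₁ := by
    rw [hS₁, ← hlamc]
    refine le_trans ?_ h15a
    calc ENNReal.ofReal (A.kk x * τ / 32) = ENNReal.ofReal (A.kk x / 4 * (τ / 8)) := by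
          congr 1; ring
      _ = ENNReal.ofReal (A.kk x / 4) * ENNReal.ofReal (τ / 8) :=
          ENNReal.ofReal_mul (by positivity)
      _ ≤ ENNReal.ofReal (A.kk x / 4) * lam I := mul_le_mul_right hlamI _
  -- the part where the density is large
  set f := ν.rnDeriv lam with hf
  have hfm : Measurable f := Measure.measurable_rnDeriv ν lam
  have hwd : lam.withDensity f = ν := Measure.withDensity_rnDeriv_eq ν lam hac
  set L : Set ℂ := {ξ | ENNReal.ofReal δ ≤ f ξ} with hL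
  have hLm : MeasurableSet L := measurableSet_le measurable_const hfm
  have hB : lam (S₁ ∩ L) ≤ ENNReal.ofReal (A.kk x * τ / 64) := by
    have h4 : ENNReal.ofReal δ * lam (S₁ ∩ L) ≤ ν (S₁ ∩ L) := by
      rw [← hwd, withDensity_apply _ (hS₁m.inter hLm)]
      rw [← setLIntegral_const]
      exact setLIntegral_mono hfm fun ξ hξ => hξ.2
    have h5 : ν (S₁ ∩ L) ≤ ENNReal.ofReal (C₁ * A.kk x * τ ^ 2) := by
      refine le_trans (measure_mono ?_) (hN2 x hct)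
      intro ξ hξ
      exact hξ.1.2
    have h6 : ENNReal.ofReal (C₁ * A.kk x * τ ^ 2) ≤
        ENNReal.ofReal δ * ENNReal.ofReal (A.kk x * τ / 64) := by
      rw [← ENNReal.ofReal_mul hδ.le]
      apply ENNReal.ofReal_le_ofReal
      have h7 : 0 ≤ A.kk x * τ := by positivity
      have h8 := mul_le_mul_of_nonneg_right hτδ h7
      nlinarith
    have h9 : ENNReal.ofReal δ * lam (S₁ ∩ L) ≤ ENNReal.ofReal δ * ENNReal.ofReal (A.kk x * τ / 64) :=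
      h4.trans (h5.trans h6)
    exact (ENNReal.mul_le_mul_iff_right (by simpa using hδ) ENNReal.ofReal_ne_top).1 h9
  refine ⟨S₁ \ L, hS₁m.diff hLm, ?_, ?_, ?_⟩
  · intro ξ hξ
    have hξ1 := hξ.1
    have h4 := h15c ξ hξ1.1 hξ1.2
    rw [mem_closedBall, dist_eq_norm]
    have h5 : A.kk x / (c / 2) ≤ 8 / (c * κ₀) * A.kk w := by
      rw [div_le_iff₀ (by linarith)]
      have h6 : 8 / (c * κ₀) * A.kk w * (c / 2) = 4 / κ₀ * A.kk w := by
        field_simp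
        ring
      rw [h6]
      exact hx2'
    calc ‖ξ - η‖ = ‖(ξ - A.pt x) + ((A.pt x - A.pt w) - (η - A.pt w))‖ := by congr 1; ring
      _ ≤ ‖ξ - A.pt x‖ + ‖(A.pt x - A.pt w) - (η - A.pt w)‖ := norm_add_le _ _
      _ ≤ ‖ξ - A.pt x‖ + (‖A.pt x - A.pt w‖ + ‖η - A.pt w‖) := by
          have := norm_sub_le (A.pt x - A.pt w) (η - A.pt w)
          linarith
      _ ≤ 8 / (c * κ₀) * A.kk w + (2 / κ₀ * A.kk w + C * A.kk w) := by linarith
      _ = (8 / (c * κ₀) + 2 / κ₀ + C) * A.kk w := by ring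
  · intro ξ hξ
    have := hξ.2
    rw [hL, mem_ofPred_eq, not_le] at this
    exact this
  · have h4 : lam S₁ ≤ lam (S₁ \ L) + lam (S₁ ∩ L) := by
      rw [measure_sdiff_add_inter S₁ hLm]
    have h5 : ENNReal.ofReal (A.kk x * τ / 32) =
        ENNReal.ofReal (A.kk x * τ / 64) + ENNReal.ofReal (A.kk x * τ / 64) := by
      rw [← ENNReal.ofReal_add (by positivity) (by positivity)]
      congr 1
      ring
    have h6 : ENNReal.ofReal (A.kk x * τ / 64) + ENNReal.ofReal (A.kk x * τ / 64) ≤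
        lam (S₁ \ L) + ENNReal.ofReal (A.kk x * τ / 64) := by
      rw [← h5]
      exact hlamS₁.trans (h4.trans (add_le_add_right hB _))
    have h7 : ENNReal.ofReal (A.kk x * τ / 64) ≤ lam (S₁ \ L) :=
      (ENNReal.add_le_add_iff_right ENNReal.ofReal_ne_top).1 h6
    refine le_trans (ENNReal.ofReal_le_ofReal ?_) h7
    have h8 := mul_le_mul_of_nonneg_right hx1 hτ.le
    linarith

theorem N03 (h1 : B01_stmt) (h3 : B03_stmt) (h5 : B05_stmt) (h13 : B13_stmt) (h15 : B15_stmt)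
    (h16 : B16_stmt) (hM11 : M11_stmt) (hN01 : N01_stmt) (hN02 : N02_stmt) : N03_stmt := by
  intro Γ _ A W ν hS hac hHUB
  by_contra hcoc
  obtain ⟨CH, hCH, hhit⟩ := hHUB
  have hνp : IsProbabilityMeasure ν := hS.prob
  have hlp : IsProbabilityMeasure lam := h5.1
  have hkk : ∀ t, 0 < A.kk t ∧ A.kk t ≤ 1 := (h3 Γ A).1
  obtain ⟨M, -, hM⟩ := hM11 Γ A W ν hS
  obtain ⟨C, c₀, hC, -, hcm, hcν⟩ := hM (1 / 2) (by norm_num)
  have hν : ν (con A W M C c₀) ≠ 0 := by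
    intro h0
    have h2 := prob_add_prob_compl (μ := ν) hcm
    rw [h0, zero_add] at h2
    rw [h2] at hcν
    norm_num at hcν
  obtain ⟨δ, hδ, hN⟩ := N03_lev lam ν hac _ hcm hν
  obtain ⟨T₀, c', hc', hT'⟩ := h13 Γ A hS.nonel
  set c : ℝ := min c' 1 with hc
  have hc0 : 0 < c := lt_min hc' one_pos
  have hc1 : c ≤ 1 := min_le_right _ _
  have hT : ∀ z w : ℂ, ‖z‖ ≤ 1 → ‖w‖ ≤ 1 → ∃ t ∈ T₀, c ≤ ‖1 - conj z * A.act t w‖ := by
    intro z w hz hw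
    obtain ⟨t, ht, h⟩ := hT' z w hz hw
    exact ⟨t, ht, (min_le_left _ _).trans h⟩
  obtain ⟨κ₀, hκ₀, hκ₁, hκ⟩ := N03_min T₀ A.kk hkk
  obtain ⟨C₁, hC₁, hN2⟩ := hN02 Γ A W ν hS CH hCH hhit c hc0 hc1
  set τ : ℝ := min (c / 4) (min (1 / 2) (δ / (64 * C₁))) with hτ
  have hτ0 : 0 < τ := by
    apply lt_min (by linarith)
    apply lt_min (by norm_num)
    positivity
  have hτc : τ ≤ c / 4 := min_le_left _ _
  have hτ1 : τ < 1 := by
    have : τ ≤ 1 / 2 := (min_le_right _ _).trans (min_le_left _ _)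
    linarith
  have hτδ : 64 * C₁ * τ ≤ δ := by
    have h2 : τ ≤ δ / (64 * C₁) := (min_le_right _ _).trans (min_le_right _ _)
    rw [le_div_iff₀ (by positivity)] at h2
    linarith
  obtain ⟨u, hu, hole⟩ := hN01 Γ A hS.disc hcoc τ hτ0 hτ1
  have hN2' : ∀ x : Γ, c ≤ ‖u - A.pt x⁻¹‖ →
      ν (A.act x⁻¹ ⁻¹' (circ ∩ closedBall u (τ / 2))) ≤ ENNReal.ofReal (C₁ * A.kk x * τ ^ 2) :=
    fun x hx => hN2 τ u x hτ0 hτc hu hole hx
  set K : ℝ := 8 / (c * κ₀) + 2 / κ₀ + C with hK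
  have hK1 : 1 ≤ K := by
    rw [hK]
    have h2 : 0 ≤ 8 / (c * κ₀) := by positivity
    have h4 : 0 ≤ 2 / κ₀ := by positivity
    linarith
  apply hN
  have hfm : Measurable (ν.rnDeriv lam) := Measure.measurable_rnDeriv ν lam
  refine h16 lam _ (hcm.inter (measurableSet_le measurable_const hfm)) ?_
  refine Filter.Eventually.of_forall ?_
  intro η hη
  refine ⟨κ₀ * τ / (256 * K), by positivity, ?_⟩
  intro δ' hδ'
  obtain ⟨k, hk⟩ : ∃ k : ℕ, K * (1 / 2 : ℝ) ^ k < δ' := by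
    obtain ⟨k, hk⟩ := exists_pow_lt_of_lt_one (show 0 < δ' / K by positivity)
      (show (1 / 2 : ℝ) < 1 by norm_num)
    refine ⟨k, ?_⟩
    rw [lt_div_iff₀ (by linarith)] at hk
    linarith
  obtain ⟨n, hkn, -, w, -, hw2, hw3, -⟩ := hη.1 k
  have hkw := (hkk w).1
  obtain ⟨S, hSm, hSb, hSf, hSl⟩ := N03_loc h1 h3 h5 h15 Γ A ν hac T₀ c κ₀ C C₁ δ τ u η w hc0 hc1
    hκ₀ hκ hδ hτ0 hτc hC₁ hτδ hu hT hN2' hw3
  refine ⟨K * A.kk w, by positivity, ?_, S, hSm, hSb, ?_, ?_⟩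
  · have h2 : (1 / 2 : ℝ) ^ n ≤ (1 / 2 : ℝ) ^ k :=
      pow_le_pow_of_le_one (by norm_num) (by norm_num) hkn
    calc K * A.kk w ≤ K * (1 / 2 : ℝ) ^ k :=
          mul_le_mul_of_nonneg_left (hw2.trans h2) (by linarith)
      _ < δ' := hk
  · rw [Set.disjoint_left]
    intro ξ hξ hξN
    exact absurd (hSf ξ hξ) (not_lt.2 hξN.2)
  · refine le_trans ?_ hSl
    have h2 := h5.2.2.2.1 η (K * A.kk w) (by positivity)
    calc ENNReal.ofReal (κ₀ * τ / (256 * K)) * lam (closedBall η (K * A.kk w))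
        ≤ ENNReal.ofReal (κ₀ * τ / (256 * K)) * ENNReal.ofReal (K * A.kk w) :=
          mul_le_mul_right h2 _
      _ = ENNReal.ofReal (κ₀ * τ / (256 * K) * (K * A.kk w)) :=
          (ENNReal.ofReal_mul (by positivity)).symm
      _ = ENNReal.ofReal (κ₀ * τ / 256 * A.kk w) := by
          congr 1
          field_simp

end Pool.Agent.SG
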